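import Mathlib

set_option autoImplicit false

namespace Pool.Agent.X149.PellSum

open Finset

variable {R : Type*} [CommRing R]

/-- The alternating binomial transform of a sequence. -/
def bt (u : ℕ → R) (m : ℕ) : R := ∑ k ∈ range (m+1), (m.choose k : R) * (-1)^k * u k

lemma bt_succ_eq (u : ℕ → R) (m : ℕ) :
    bt u m = u 0 + ∑ k ∈ range (m+1), (m.choose (k+1) : R) * (-1)^(k+1) * u (k+1) := by
  have h : bt u m = ∑ k ∈ range (m+2), (m.choose k : R) * (-1)^k * u k := by
    rw [sum_range_succ, Nat.choose_succ_self]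
    simp [bt]
  rw [h, sum_range_succ']
  simp [add_comm]

lemma bt_shift (u : ℕ → R) (m : ℕ) : bt (fun k => u (k+1)) m = bt u m - bt u (m+1) := by
  rw [bt_succ_eq u m]
  have h : bt u (m+1) = u 0 + ∑ k ∈ range (m+1), ((m+1).choose (k+1) : R) * (-1)^(k+1) * u (k+1) := by
    unfold bt
    rw [sum_range_succ']
    simp [add_comm]
  rw [h]
  unfold bt
  rw [add_sub_add_left_eq_sub, ← sum_sub_distrib]
  apply sum_congr rfl
  intro k _
  rw [Nat.choose_succ_succ]
  push_cast
  ring

lemma bt_mul_zero (u : ℕ → R) : bt (fun k => (k:R) * u k) 0 = 0 := by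
  simp [bt]

lemma bt_mul (u : ℕ → R) (m : ℕ) :
    bt (fun k => (k:R) * u k) (m+1) = ((m:R)+1) * (bt u (m+1) - bt u m) := by
  have h : bt (fun k => (k:R) * u k) (m+1) =
      ∑ k ∈ range (m+1), ((m+1).choose (k+1) : R) * (-1)^(k+1) * (((k+1 : ℕ):R) * u (k+1)) := by
    unfold bt
    rw [sum_range_succ']
    simp
  rw [h]
  have h2 : bt u (m+1) - bt u m = - bt (fun k => u (k+1)) m := by rw [bt_shift]; ring
  rw [h2]
  unfold bt
  rw [mul_neg, mul_sum, ← sum_neg_distrib]
  apply sum_congr rfl
  intro k _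
  have e : (((m+1).choose (k+1) : ℕ) : R) * ((k+1 : ℕ) : R) = ((m:R)+1) * (m.choose k : R) := by
    have := Nat.add_one_mul_choose_eq m k
    rw [← Nat.cast_mul, ← this]
    push_cast
    ring
  calc ((m+1).choose (k+1) : R) * (-1)^(k+1) * (((k+1 : ℕ):R) * u (k+1))
      = ((((m+1).choose (k+1) : ℕ) : R) * ((k+1 : ℕ) : R)) * (-1)^(k+1) * u (k+1) := by ring
    _ = _ := by rw [e]; ring

lemma bt_add (u v : ℕ → R) (m : ℕ) : bt (fun k => u k + v k) m = bt u m + bt v m := by
  unfold bt
  rw [← sum_add_distrib]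
  apply sum_congr rfl
  intro k _
  ring

lemma bt_smul (c : R) (u : ℕ → R) (m : ℕ) : bt (fun k => c * u k) m = c * bt u m := by
  unfold bt
  rw [mul_sum]
  apply sum_congr rfl
  intro k _
  ring

/-- Sequences with the recursion `2(k+1)^2 u(k+1) = ((k+1)(2k+1) - q k) u(k)`, `q^2 = 0`, are
invariant under the alternating binomial transform. -/
lemma invariant (q : R) (hq : q * q = 0) (u : ℕ → R) (N : ℕ)
    (hu : ∀ k : ℕ, 2 * ((k:R)+1)^2 * u (k+1) = (((k:R)+1) * (2 * k + 1) - q * k) * u k)
    (h2 : IsUnit (2:R)) (hun : ∀ k, k < N → IsUnit ((k:R)+1)) :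
    ∀ m, m ≤ N → bt u m = u m := by
  -- the recursion for the transform
  have hE : ∀ m, -2 * bt (fun k => (k:R) * ((k:R) * u k)) (m+1) =
      (3 - q) * bt (fun k => (k:R) * u k) m + bt u m := by
    intro m
    have h1 := bt_shift (fun k => (k:R) * ((k:R) * u k)) m
    have h3 : bt (fun k => 2 * (((k+1 : ℕ):R) * (((k+1 : ℕ):R) * u (k+1)))) m =
        bt (fun k => 2 * ((k:R) * ((k:R) * u k)) + ((3 - q) * ((k:R) * u k) + u k)) m := by
      unfold bt
      apply sum_congr rfl
      intro k _
      have := hu k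
      have e : 2 * (((k+1 : ℕ):R) * (((k+1 : ℕ):R) * u (k+1))) =
          2 * ((k:R) * ((k:R) * u k)) + ((3 - q) * ((k:R) * u k) + u k) := by
        push_cast
        linear_combination this
      beta_reduce
      rw [e]
    rw [bt_smul, bt_add, bt_smul, bt_add, bt_smul, h1] at h3
    linear_combination h3
  have h0 : bt u 0 = u 0 := by simp [bt]
  have hstep : ∀ m, (m + 1 ≤ N) → (bt u m = u m ∧ bt u (m+1) = u (m+1)) := by
    intro m
    induction m with
    | zero =>
      intro _
      refine ⟨h0, ?_⟩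
      have e := hE 0
      rw [bt_mul, bt_mul, bt_mul_zero] at e
      have e1 := hu 0
      apply h2.mul_left_cancel
      push_cast at e e1
      rw [← h0] at e1
      linear_combination -e - e1
    | succ j ih =>
      intro hj
      obtain ⟨i1, i2⟩ := ih (by omega)
      refine ⟨i2, ?_⟩
      have e := hE (j+1)
      rw [bt_mul, bt_mul, bt_mul, i1, i2] at e
      push_cast at e
      have hu1 := hu j
      have hu2 := hu (j+1)
      push_cast at hu2
      have hU : IsUnit ((j:R)+1) := hun j (by omega)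
      have hU2 : IsUnit ((j:R)+1+1) := by
        have := hun (j+1) (by omega)
        push_cast at this
        exact this
      -- the first order relation
      have key : (2 * (j:R) + 1 + q) * u j = 2 * ((j:R) + 1 + q) * u (j+1) := by
        have hh : ((j:R)+1)^2 * ((2 * (j:R) + 1 + q) * u j) =
            ((j:R)+1)^2 * (2 * ((j:R) + 1 + q) * u (j+1)) := by
          linear_combination (-((j:R)+1+q)) * hu1 + ((j:R) * u j) * hq
        exact (hU.pow 2).mul_left_cancel hh
      apply (h2.mul (hU2.pow 2)).mul_left_cancel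
      linear_combination -e - hu2 - ((j:R)+1) * key
  intro m hm
  rcases Nat.eq_zero_or_pos m with h | h
  · rw [h]; exact h0
  · obtain ⟨k, rfl⟩ : ∃ k, m = k + 1 := ⟨m-1, by omega⟩
    exact (hstep k hm).2

end Pool.Agent.X149.PellSum
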