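import Pool.Agent.X149.PellSum.Core

set_option autoImplicit false

namespace Pool.Agent.X149.PellSum

open Finset

variable {p : ℕ} [Fact p.Prime]


lemma two_ne (hp : p ≠ 2) : (2 : ZMod p) ≠ 0 := by
  intro h
  have : ((2:ℕ) : ZMod p) = 0 := by exact_mod_cast h
  rw [ZMod.natCast_eq_zero_iff] at this
  have h1 := (Nat.prime_dvd_prime_iff_eq Fact.out Nat.prime_two).mp this
  exact hp h1

lemma char_ne (hp : p ≠ 2) : ringChar (ZMod p) ≠ 2 := by
  rw [ZMod.ringChar_zmod_n]; exact hp

/-- number of `x` with `x^2 - u x + 2 = 0` -/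
lemma card_roots (hp : p ≠ 2) (u : ZMod p) :
    (((univ : Finset (ZMod p)).filter (fun x => x ≠ 0 ∧ x + 2 * x⁻¹ = u)).card : ℤ) =
      quadraticChar (ZMod p) (u^2 - 8) + 1 := by
  have h2 := two_ne hp
  rw [← quadraticChar_card_sqrts (char_ne hp) (u^2 - 8)]
  congr 1
  apply card_bij (fun x _ => 2 * x - u)
  · intro x hx
    rw [mem_filter] at hx
    obtain ⟨_, hx0, hxu⟩ := hx
    rw [Set.mem_toFinset, Set.mem_setOf_eq]
    have e : x * u = x^2 + 2 := by
      rw [← hxu]; field_simp
    linear_combination (-4) * e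
  · intro x _ y _ hxy
    have : 2 * (x - y) = 0 := by linear_combination hxy
    rcases mul_eq_zero.mp this with h | h
    · exact absurd h h2
    · exact sub_eq_zero.mp h
  · intro y hy
    rw [Set.mem_toFinset, Set.mem_setOf_eq] at hy
    refine ⟨(y + u) / 2, ?_, ?_⟩
    · rw [mem_filter]
      have e : ((y+u)/2)^2 - u * ((y+u)/2) + 2 = 0 := by
        field_simp
        linear_combination hy
      have h0 : (y+u)/2 ≠ 0 := by
        intro h
        rw [h] at e
        apply h2
        linear_combination e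
      refine ⟨mem_univ _, h0, ?_⟩
      generalize (y+u)/2 = x at e h0
      field_simp
      linear_combination e
    · field_simp
      ring

lemma sum_shift (f : ZMod p → ℤ) (c : ZMod p) : ∑ x, f (x + c) = ∑ x, f x :=
  Equiv.sum_comp (Equiv.addRight c) f

lemma sum_scale (f : ZMod p → ℤ) (c : ZMod p) (hc : c ≠ 0) : ∑ x, f (c * x) = ∑ x, f x :=
  Equiv.sum_comp (Equiv.mulLeft₀ c hc) f

lemma char_sq_mul (x y : ZMod p) (hx : x ≠ 0) :
    quadraticChar (ZMod p) (x^2 * y) = quadraticChar (ZMod p) y := by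
  rw [map_mul, quadraticChar_sq_one' hx, one_mul]

/-- The character sum of the curve with complex multiplication by `√-2` vanishes when `-2` is a
non-square. -/
lemma charSum_zero (hp : p ≠ 2) (hm2 : quadraticChar (ZMod p) (-2) = -1) :
    ∑ x : ZMod p, quadraticChar (ZMod p) (x * (x^2 + 4*x + 2)) = 0 := by
  have h2 := two_ne hp
  set S := ∑ x : ZMod p, quadraticChar (ZMod p) (x * (x^2 + 4*x + 2)) with hS
  have h1 : S = ∑ x : ZMod p, if x ≠ 0 then quadraticChar (ZMod p) ((x + 2 * x⁻¹) + 4) else 0 := by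
    rw [hS]
    apply sum_congr rfl
    intro x _
    by_cases hx : x = 0
    · simp [hx]
    · rw [if_pos hx]
      have e : x * (x^2 + 4*x + 2) = x^2 * ((x + 2 * x⁻¹) + 4) := by
        field_simp
        ring
      rw [e, char_sq_mul _ _ hx]
  have h3 : ∑ x : ZMod p, (if x ≠ 0 then quadraticChar (ZMod p) ((x + 2 * x⁻¹) + 4) else 0) =
      ∑ u : ZMod p, quadraticChar (ZMod p) (u + 4) * (quadraticChar (ZMod p) (u^2 - 8) + 1) := by
    have e1 : ∀ x : ZMod p, (if x ≠ 0 then quadraticChar (ZMod p) ((x + 2 * x⁻¹) + 4) else 0) =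
        ∑ u : ZMod p, if (x ≠ 0 ∧ x + 2 * x⁻¹ = u) then quadraticChar (ZMod p) (u + 4) else 0 := by
      intro x
      by_cases hx : x = 0
      · simp [hx]
      · simp [hx]
    rw [sum_congr rfl (fun x _ => e1 x), sum_comm]
    apply sum_congr rfl
    intro u _
    rw [← card_roots hp u, ← sum_filter, sum_const, nsmul_eq_mul]
    ring
  have h4 : ∑ u : ZMod p, quadraticChar (ZMod p) (u + 4) * (quadraticChar (ZMod p) (u^2 - 8) + 1) =
      ∑ u : ZMod p, quadraticChar (ZMod p) (u + 4) * quadraticChar (ZMod p) (u^2 - 8) := by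
    have e : ∀ u : ZMod p, quadraticChar (ZMod p) (u + 4) * (quadraticChar (ZMod p) (u^2 - 8) + 1) =
      quadraticChar (ZMod p) (u + 4) * quadraticChar (ZMod p) (u^2 - 8) +
        quadraticChar (ZMod p) (u + 4) := by intro u; ring
    rw [sum_congr rfl (fun u _ => e u), sum_add_distrib,
      sum_shift (fun u => quadraticChar (ZMod p) u) 4, quadraticChar_sum_zero (char_ne hp), add_zero]
  have h5 : ∑ u : ZMod p, quadraticChar (ZMod p) (u + 4) * quadraticChar (ZMod p) (u^2 - 8) =
      ∑ v : ZMod p, quadraticChar (ZMod p) (v * (v^2 - 8 * v + 8)) := by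
    rw [← sum_shift (fun v => quadraticChar (ZMod p) (v * (v^2 - 8 * v + 8))) 4]
    apply sum_congr rfl
    intro u _
    rw [← map_mul]
    congr 1
    ring
  have h6 : ∑ v : ZMod p, quadraticChar (ZMod p) (v * (v^2 - 8 * v + 8)) = -S := by
    rw [← sum_scale (fun v => quadraticChar (ZMod p) (v * (v^2 - 8 * v + 8))) (-2)
      (neg_ne_zero.mpr h2), hS, ← sum_neg_distrib]
    apply sum_congr rfl
    intro x _
    have e : (-2 * x) * ((-2*x)^2 - 8 * (-2*x) + 8) = 2^2 * ((-2) * (x * (x^2 + 4*x + 2))) := by ring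
    rw [e, char_sq_mul _ _ h2, map_mul, hm2]
    ring
  have : S = -S := by
    conv_lhs => rw [h1, h3, h4, h5, h6]
  omega

end Pool.Agent.X149.PellSum
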