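import Pool.Agent.X149.PellSum.Bt

set_option autoImplicit false

namespace Pool.Agent.X149.PellSum

open Finset

variable {R : Type*} [CommRing R]

lemma choose_rec (n k : ℕ) :
    (n.choose (k+1) : R) * ((k:R)+1) = (n.choose k : R) * ((n:R) - k) := by
  rcases Nat.lt_or_ge n k with h | h
  · rw [Nat.choose_eq_zero_of_lt h, Nat.choose_eq_zero_of_lt (by omega)]
    simp
  · have := Nat.choose_succ_right_eq n k
    have e : ((n.choose (k+1) * (k+1) : ℕ) : R) = ((n.choose k * (n-k) : ℕ) : R) := by rw [this]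
    push_cast [Nat.cast_sub h] at e
    exact e

lemma choose_add_rec (n k : ℕ) :
    ((n+(k+1)).choose (k+1) : R) * ((k:R)+1) = ((n+k).choose k : R) * ((n:R) + k + 1) := by
  have := Nat.add_one_mul_choose_eq (n+k) k
  have e : (((n+k+1) * (n+k).choose k : ℕ) : R) = (((n+k+1).choose (k+1) * (k+1) : ℕ) : R) := by
    rw [this]
  push_cast at e
  rw [← add_assoc n k 1]
  linear_combination -e

/-- The sequence `(-1)^k C(2n,k) C(n+k,k)`. -/
def useq (R : Type*) [CommRing R] (n k : ℕ) : R :=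
  (-1)^k * ((2*n).choose k : R) * ((n+k).choose k : R)

lemma useq_rec (n : ℕ) (hq : (2*(n:R)+1) * (2*(n:R)+1) = 0) (k : ℕ) :
    2 * ((k:R)+1)^2 * useq R n (k+1) =
      (((k:R)+1) * (2 * k + 1) - (2*(n:R)+1) * k) * useq R n k := by
  unfold useq
  have h1 := choose_rec (R := R) (2*n) k
  have h2 := choose_add_rec (R := R) n k
  push_cast at h1
  have e : 2 * ((k:R)+1)^2 * ((-1)^(k+1) * ((2*n).choose (k+1) : R) * ((n+(k+1)).choose (k+1) : R)) =
      2 * (-1)^(k+1) * (((2*n).choose (k+1) : R) * ((k:R)+1)) *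
        (((n+(k+1)).choose (k+1) : R) * ((k:R)+1)) := by ring
  rw [e, h1, h2]
  linear_combination (-((-1)^k * ((2*n).choose k : R) * ((n+k).choose k : R))) * hq

/-- The truncated sum. -/
def G (n : ℕ) (z : R) : R :=
  ∑ m ∈ range (n+1), ((2*n).choose m : R) * (n.choose m : R) * ((n+m).choose m : R) * z^m

lemma G_pfaff (n : ℕ) (hq : (2*(n:R)+1) * (2*(n:R)+1) = 0) (h2 : IsUnit (2:R))
    (hun : ∀ k, k < n → IsUnit ((k:R)+1)) (z : R) :
    G n z = ∑ k ∈ range (n+1), ((2*n).choose k : R) * (n.choose k : R) * ((n+k).choose k : R) *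
      (-z)^k * (1 - z)^(n-k) := by
  have hinv := invariant (2*(n:R)+1) hq (useq R n) n (useq_rec n hq) h2 hun
  have e1 : ∀ k ∈ range (n+1), ((2*n).choose k : R) * (n.choose k : R) * ((n+k).choose k : R) *
      (-z)^k * (1 - z)^(n-k) = ∑ j ∈ range (n+1-k), ((2*n).choose k : R) * (n.choose k : R) *
        ((n+k).choose k : R) * (-z)^(k+j) * ((n-k).choose j : R) := by
    intro k hk
    have hk' : k ≤ n := by have := mem_range.mp hk; omega
    have e : (1 - z)^(n-k) = ∑ j ∈ range (n-k+1), (-z)^j * 1^(n-k-j) * ((n-k).choose j : R) := by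
      rw [← add_pow]; congr 1; ring
    rw [e, mul_sum, show n+1-k = n-k+1 by omega]
    apply sum_congr rfl
    intro j _
    rw [pow_add]
    ring
  rw [sum_congr rfl e1]
  have e2 := sum_range_diag_flip (n+1) (fun k j => ((2*n).choose k : R) * (n.choose k : R) *
        ((n+k).choose k : R) * (-z)^(k+j) * ((n-k).choose j : R))
  rw [← e2]
  unfold G
  apply sum_congr rfl
  intro m hm
  have hm' : m ≤ n := by have := mem_range.mp hm; omega
  have e3 : ∀ k ∈ range (m+1), ((2*n).choose k : R) * (n.choose k : R) *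
        ((n+k).choose k : R) * (-z)^(k+(m-k)) * ((n-k).choose (m-k) : R) =
        ((n.choose m : R) * (-z)^m) * ((m.choose k : R) * (-1)^k * useq R n k) := by
    intro k hk
    have hk' : k ≤ m := by have := mem_range.mp hk; omega
    have h := Nat.choose_mul (n := n) hk'
    have hc : (n.choose m : R) * (m.choose k : R) = (n.choose k : R) * ((n-k).choose (m-k) : R) := by
      exact_mod_cast congrArg (Nat.cast (R := R)) h
    rw [show k + (m-k) = m by omega]
    unfold useq
    have h1 : ((-1:R))^k * (-1)^k = 1 := by rw [← mul_pow]; simp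
    linear_combination (-((-z)^m * ((2*n).choose k : R) * ((n+k).choose k : R))) * hc
      - ((n.choose m : R) * (-z)^m * (m.choose k : R) * ((2*n).choose k : R) * ((n+k).choose k : R)) * h1
  rw [sum_congr rfl e3, ← mul_sum]
  have e4 : ∑ k ∈ range (m+1), ((m.choose k : R) * (-1)^k * useq R n k) = useq R n m := hinv m hm'
  rw [e4]
  unfold useq
  have h1 : (-z)^m * (-1)^m = z^m := by rw [← mul_pow]; congr 1; ring
  linear_combination (-(((2*n).choose m : R) * (n.choose m : R) * ((n+m).choose m : R))) * h1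

lemma G_rel (n : ℕ) (hq : (2*(n:R)+1) * (2*(n:R)+1) = 0) (h2 : IsUnit (2:R))
    (hun : ∀ k, k < n → IsUnit ((k:R)+1)) (s : R) (hs : s^2 = 2) :
    G n (-2*(1+s)) = (1+s)^(2*n) * G n (-2*(1-s)) := by
  rw [G_pfaff n hq h2 hun (-2*(1+s))]
  unfold G
  rw [mul_sum]
  apply sum_congr rfl
  intro k hk
  have hk' : k ≤ n := by have := mem_range.mp hk; omega
  have e1 : 1 - (-2*(1+s)) = (1+s)^2 := by linear_combination -hs
  have e2 : (-(-2*(1+s)))^k * (1 - (-2*(1+s)))^(n-k) = (1+s)^(2*n) * (-2*(1-s))^k := by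
    rw [e1, ← pow_mul]
    have h3 : (1+s) * (s-1) = 1 := by linear_combination hs
    have h4 : (-2*(1-s)) = 2 * (s-1) := by ring
    rw [h4, mul_pow 2 (s-1) k, show -(-2*(1+s)) = 2*(1+s) by ring, mul_pow 2 (1+s) k]
    have h5 : (1+s)^(2*n) = (1+s)^(k + 2*(n-k)) * (1+s)^k := by
      rw [← pow_add]; congr 1; omega
    have h6 : (1+s)^k * (s-1)^k = 1 := by rw [← mul_pow, h3, one_pow]
    rw [h5, pow_add]
    linear_combination (-(2^k * (1+s)^k * (1+s)^(2*(n-k)))) * h6
  linear_combination (((2*n).choose k : R) * (n.choose k : R) * ((n+k).choose k : R)) * e2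

/-- `16^k C(n,k) C(n+k,k) = (-1)^k C(2k,k)^2` modulo `q^2`, `q = 2n+1`. -/
lemma central_sq (n : ℕ) (hq : (2*(n:R)+1) * (2*(n:R)+1) = 0) (N : ℕ)
    (hun : ∀ k, k < N → IsUnit ((k:R)+1)) :
    ∀ k, k ≤ N → (16:R)^k * (n.choose k : R) * ((n+k).choose k : R) =
      (-1)^k * ((2*k).choose k : R)^2 := by
  intro k
  induction k with
  | zero => intro _; simp
  | succ k ih =>
    intro hk
    have ih' := ih (by omega)
    have h1 := choose_rec (R := R) n k
    have h2 := choose_add_rec (R := R) n k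
    have h3 : ((2*(k+1)).choose (k+1) : R) * ((k:R)+1) = 2 * (2*(k:R)+1) * ((2*k).choose k : R) := by
      have := Nat.succ_mul_centralBinom_succ k
      rw [Nat.centralBinom_eq_two_mul_choose, Nat.centralBinom_eq_two_mul_choose] at this
      have e : (((k+1) * (2*(k+1)).choose (k+1) : ℕ) : R) = ((2 * (2*k+1) * (2*k).choose k : ℕ) : R) := by
        rw [this]
      push_cast at e
      linear_combination e
    have hU := hun k (by omega)
    apply (hU.pow 2).mul_left_cancel
    calc ((k:R)+1)^2 * ((16:R)^(k+1) * (n.choose (k+1) : R) * ((n+(k+1)).choose (k+1) : R))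
        = 16 * 16^k * ((n.choose (k+1) : R) * ((k:R)+1)) *
            (((n+(k+1)).choose (k+1) : R) * ((k:R)+1)) := by ring
      _ = 16 * ((n:R) - k) * ((n:R) + k + 1) * ((16:R)^k * (n.choose k : R) * ((n+k).choose k : R)) := by
            rw [h1, h2]; ring
      _ = 16 * ((n:R) - k) * ((n:R) + k + 1) * ((-1)^k * ((2*k).choose k : R)^2) := by rw [ih']
      _ = -4 * (2*(k:R)+1)^2 * ((-1)^k * ((2*k).choose k : R)^2) := by
            linear_combination (4 * ((-1)^k * ((2*k).choose k : R)^2)) * hq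
      _ = (-1)^(k+1) * (((2*(k+1)).choose (k+1) : R) * ((k:R)+1))^2 := by rw [h3]; ring
      _ = _ := by ring

end Pool.Agent.X149.PellSum
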