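import Pool.Agent.X149.PellSum.PowSum

set_option autoImplicit false

namespace Pool.Agent.X149.PellSum

open Finset

variable {p : ℕ} [Fact p.Prime]

/-- reduction modulo `p` -/
noncomputable def red (p : ℕ) : ZMod (p^2) →+* ZMod p := ZMod.castHom (dvd_pow_self p two_ne_zero) (ZMod p)

lemma red_zero_exists (x : ZMod (p^2)) (hx : red p x = 0) : ∃ y : ZMod (p^2), x = (p:ZMod (p^2)) * y := by
  have : NeZero (p^2) := ⟨pow_ne_zero _ (Fact.out : p.Prime).ne_zero⟩
  have h1 : x = (x.val : ZMod (p^2)) := (ZMod.natCast_zmod_val x).symm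
  rw [h1, map_natCast, ZMod.natCast_eq_zero_iff] at hx
  obtain ⟨c, hc⟩ := hx
  refine ⟨(c : ZMod (p^2)), ?_⟩
  rw [h1, hc]
  push_cast
  ring

lemma mul_eq_zero_of_red (x y : ZMod (p^2)) (hx : red p x = 0) (hy : red p y = 0) : x * y = 0 := by
  obtain ⟨a, ha⟩ := red_zero_exists x hx
  obtain ⟨b, hb⟩ := red_zero_exists y hy
  have h : (p : ZMod (p^2))^2 = 0 := by
    have := ZMod.natCast_self (p^2)
    push_cast at this
    exact this
  rw [ha, hb]
  linear_combination (a * b) * h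

lemma isUnit_nat (k : ℕ) (hk : ¬ p ∣ k) : IsUnit (k : ZMod (p^2)) := by
  rw [ZMod.isUnit_iff_coprime]
  exact Nat.Coprime.pow_right 2 (((Fact.out : p.Prime).coprime_iff_not_dvd.mpr hk).symm)

lemma exists_sqrt_two (hp8 : p % 8 = 7) : ∃ s : ZMod (p^2), s^2 = 2 := by
  have hp2 : p ≠ 2 := by intro h; omega
  have : NeZero p := ⟨(Fact.out : p.Prime).ne_zero⟩
  obtain ⟨t, ht⟩ := (ZMod.exists_sq_eq_two_iff hp2).mpr (Or.inr hp8)

  set τ : ZMod (p^2) := (t.val : ZMod (p^2)) with hτ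
  have hred : red p (τ^2 - 2) = 0 := by
    rw [map_sub, map_pow, hτ, map_natCast, ZMod.natCast_zmod_val, map_ofNat, pow_two, ← ht, sub_self]
  have he : (τ^2 - 2) * (τ^2 - 2) = 0 := mul_eq_zero_of_red _ _ hred hred
  have hu : IsUnit (((2 * t.val : ℕ)) : ZMod (p^2)) := by
    apply isUnit_nat
    intro hd
    have h1 : ((2 * t.val : ℕ) : ZMod p) = 0 := by rwa [ZMod.natCast_eq_zero_iff]
    push_cast at h1
    rw [ZMod.natCast_zmod_val] at h1
    rcases mul_eq_zero.mp h1 with h | h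
    · exact two_ne hp2 h
    · rw [h, mul_zero] at ht
      exact two_ne hp2 ht
  obtain ⟨v, hv⟩ := hu.exists_right_inv
  push_cast at hv
  rw [← hτ] at hv
  refine ⟨τ - (τ^2 - 2) * v, ?_⟩
  linear_combination (v^2) * he - (τ^2-2) * hv

lemma red_G (n : ℕ) (z : ZMod (p^2)) : red p (G n z) = G n (red p z) := by
  unfold G
  rw [map_sum]
  apply sum_congr rfl
  intro m _
  rw [map_mul, map_mul, map_mul, map_pow, map_natCast, map_natCast, map_natCast]

end Pool.Agent.X149.PellSum
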