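import Pool.Agent.X149.PellSum.CharSum

set_option autoImplicit false

namespace Pool.Agent.X149.PellSum

open Finset

variable {p : ℕ} [Fact p.Prime]

lemma sum_pow_top : ∑ x : ZMod p, x^(p-1) = -1 := by
  have hp1 : p - 1 ≠ 0 := by have := (Fact.out : p.Prime).two_le; omega
  have e : ∀ x : ZMod p, x^(p-1) = 1 - (if x = 0 then 1 else 0) := by
    intro x
    by_cases hx : x = 0
    · simp [hx, hp1]
    · simp [hx, ZMod.pow_card_sub_one_eq_one hx]
  rw [sum_congr rfl (fun x _ => e x), sum_sub_distrib]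
  simp

lemma sum_pow_mid (m : ℕ) (h1 : p - 1 < m) (h2 : m < 2*(p-1)) : ∑ x : ZMod p, x^m = 0 := by
  have e : ∀ x : ZMod p, x^m = x^(m-(p-1)) := by
    intro x
    by_cases hx : x = 0
    · rw [hx, zero_pow (by omega), zero_pow (by omega)]
    · conv_lhs => rw [show m = (p-1) + (m-(p-1)) by omega]
      rw [pow_add, ZMod.pow_card_sub_one_eq_one hx, one_mul]
  rw [sum_congr rfl (fun x _ => e x)]
  apply FiniteField.sum_pow_lt_card_sub_one
  rw [ZMod.card]
  omega

lemma sum_pow_low (m : ℕ) (h1 : m < p - 1) : ∑ x : ZMod p, x^m = 0 := by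
  apply FiniteField.sum_pow_lt_card_sub_one
  rw [ZMod.card]
  exact h1

/-- Hasse invariant of the curve with roots `0, a, b`. -/
lemma hasse (n : ℕ) (hn : 2*n+1 = p) (hn0 : 0 < n) (a b : ZMod p) :
    ∑ t : ZMod p, (t * (t - a) * (t - b))^n =
      -((-1)^n * ∑ i ∈ range (n+1), (n.choose i : ZMod p)^2 * a^(n-i) * b^i) := by
  have e1 : ∀ t : ZMod p, (t * (t - a) * (t - b))^n =
      ∑ i ∈ range (n+1), ∑ j ∈ range (n+1), ((n.choose i : ZMod p) * (n.choose j : ZMod p) *
        (-a)^(n-i) * (-b)^(n-j)) * t^(n+i+j) := by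
    intro t
    have ea : (t - a)^n = ∑ i ∈ range (n+1), t^i * (-a)^(n-i) * (n.choose i : ZMod p) := by
      rw [← add_pow, sub_eq_add_neg]
    have eb : (t - b)^n = ∑ i ∈ range (n+1), t^i * (-b)^(n-i) * (n.choose i : ZMod p) := by
      rw [← add_pow, sub_eq_add_neg]
    rw [mul_pow, mul_pow, ea, eb, mul_assoc, sum_mul_sum, mul_sum]
    apply sum_congr rfl
    intro i _
    rw [mul_sum]
    apply sum_congr rfl
    intro j _
    rw [pow_add, pow_add]
    ring
  rw [sum_congr rfl (fun t _ => e1 t), sum_comm]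
  have e2 : ∀ i ∈ range (n+1), ∑ t : ZMod p, ∑ j ∈ range (n+1), ((n.choose i : ZMod p) *
      (n.choose j : ZMod p) * (-a)^(n-i) * (-b)^(n-j)) * t^(n+i+j) =
      -((-1)^n * ((n.choose i : ZMod p)^2 * a^(n-i) * b^i)) := by
    intro i hi
    have hi' : i ≤ n := by have := mem_range.mp hi; omega
    rw [sum_comm]
    have e3 : ∀ j ∈ range (n+1), ∑ t : ZMod p, ((n.choose i : ZMod p) *
      (n.choose j : ZMod p) * (-a)^(n-i) * (-b)^(n-j)) * t^(n+i+j) =
      if j = n - i then -((n.choose i : ZMod p) * (n.choose (n-i) : ZMod p) * (-a)^(n-i) *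
        (-b)^(n-(n-i))) else 0 := by
      intro j hj
      have hj' : j ≤ n := by have := mem_range.mp hj; omega
      rw [← mul_sum]
      split_ifs with h
      · rw [h, show n + i + (n-i) = p - 1 by omega, sum_pow_top]
        ring
      · rcases Nat.lt_or_ge (n+i+j) (p-1) with h1 | h1
        · rw [sum_pow_low _ h1, mul_zero]
        · rw [sum_pow_mid _ (by omega) (by omega), mul_zero]
    rw [sum_congr rfl e3, sum_ite_eq' (range (n+1)) (n-i), if_pos (mem_range.mpr (by omega)),
      Nat.choose_symm hi', show n - (n-i) = i by omega]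
    have h1 : (-a)^(n-i) = (-1)^(n-i) * a^(n-i) := by rw [← mul_pow]; congr 1; ring
    have h2 : (-b)^i = (-1)^i * b^i := by rw [← mul_pow]; congr 1; ring
    have h3 : ((-1 : ZMod p))^n = (-1)^(n-i) * (-1)^i := by rw [← pow_add]; congr 1; omega
    rw [h1, h2, h3]
    ring
  rw [sum_congr rfl e2, sum_neg_distrib, ← mul_sum]

/-- `G` modulo `p` is the sum of `C(n,m)^2 z^m`. -/
lemma G_mod (n : ℕ) (hn : 2*n+1 = p) (z : ZMod p) :
    G n z = ∑ m ∈ range (n+1), (n.choose m : ZMod p)^2 * z^m := by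
  have hq : (2*(n:ZMod p)+1) = 0 := by
    have : ((2*n+1 : ℕ) : ZMod p) = 0 := by rw [hn]; simp
    push_cast at this
    exact this
  have hunit : ∀ k, k < n → ((k:ZMod p)+1) ≠ 0 := by
    intro k hk h
    have : ((k+1 : ℕ) : ZMod p) = 0 := by push_cast; exact h
    rw [ZMod.natCast_eq_zero_iff] at this
    have := Nat.le_of_dvd (by omega) this
    omega
  have key : ∀ k, k ≤ n → ((2*n).choose k : ZMod p) = (-1)^k ∧
      ((n+k).choose k : ZMod p) = (-1)^k * (n.choose k : ZMod p) := by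
    intro k
    induction k with
    | zero => intro _; simp
    | succ k ih =>
      intro hk
      obtain ⟨i1, i2⟩ := ih (by omega)
      have h0 := hunit k (by omega)
      have h1 := choose_rec (R := ZMod p) (2*n) k
      have h2 := choose_add_rec (R := ZMod p) n k
      have h3 := choose_rec (R := ZMod p) n k
      push_cast at h1
      refine ⟨?_, ?_⟩
      · apply mul_right_cancel₀ h0
        rw [h1, i1]
        linear_combination ((-1)^k) * hq
      · apply mul_right_cancel₀ h0
        rw [h2, i2]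
        linear_combination ((-1)^k * (n.choose k : ZMod p)) * hq + ((-1)^k) * h3
  unfold G
  apply sum_congr rfl
  intro m hm
  obtain ⟨h1, h2⟩ := key m (by have := mem_range.mp hm; omega)
  rw [h1, h2]
  have h3 : ((-1 : ZMod p))^m * (-1)^m = 1 := by rw [← mul_pow]; simp
  linear_combination ((n.choose m : ZMod p)^2 * z^m) * h3

/-- `G` vanishes modulo `p` at the CM point when `-2` is a non-square. -/
lemma G_zero (n : ℕ) (hn : 2*n+1 = p) (hn0 : 0 < n) (hm2 : quadraticChar (ZMod p) (-2) = -1)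
    (s : ZMod p) (hs : s^2 = 2) : G n (-2*(1-s)) = 0 := by
  have hp2 : p ≠ 2 := by omega
  have h2 := two_ne hp2
  have h0 := charSum_zero hp2 hm2
  have hc : ((∑ x : ZMod p, quadraticChar (ZMod p) (x * (x^2 + 4*x + 2)) : ℤ) : ZMod p) =
      ∑ x : ZMod p, (x * (x^2 + 4*x + 2))^n := by
    push_cast
    apply sum_congr rfl
    intro x _
    rw [quadraticChar_eq_pow_of_char_ne_two' (char_ne hp2), ZMod.card]
    congr 1
    omega
  rw [h0] at hc
  have e1 : ∑ x : ZMod p, (x * (x^2 + 4*x + 2))^n =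
      ∑ y : ZMod p, (y * (y - (2+s)) * (y - 2*s))^n := by
    rw [← Equiv.sum_comp (Equiv.addRight (2+s)) (fun y => (y * (y - (2+s)) * (y - 2*s))^n)]
    apply sum_congr rfl
    intro x _
    congr 1
    simp only [Equiv.coe_addRight]
    linear_combination x * hs
  rw [e1, hasse n hn hn0] at hc
  have hH : ∑ i ∈ range (n+1), (n.choose i : ZMod p)^2 * (2+s)^(n-i) * (2*s)^i = 0 := by
    have h3 : ((-1 : ZMod p))^n * ∑ i ∈ range (n+1), (n.choose i : ZMod p)^2 * (2+s)^(n-i) * (2*s)^i = 0 := by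
      rw [Int.cast_zero, eq_comm, neg_eq_zero] at hc
      exact hc
    rcases mul_eq_zero.mp h3 with h | h
    · exact absurd h (pow_ne_zero _ (by norm_num))
    · exact h
  rw [G_mod n hn]
  have ha : (2+s) ≠ 0 := by
    intro h
    apply h2
    linear_combination (2-s) * h + hs
  have e2 : (2+s)^n * ∑ m ∈ range (n+1), (n.choose m : ZMod p)^2 * (-2*(1-s))^m =
      ∑ i ∈ range (n+1), (n.choose i : ZMod p)^2 * (2+s)^(n-i) * (2*s)^i := by
    rw [mul_sum]
    apply sum_congr rfl
    intro i hi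
    have hi' : i ≤ n := by have := mem_range.mp hi; omega
    have e3 : 2*s = (2+s) * (-2*(1-s)) := by linear_combination (-2) * hs
    have e4 : (2*s)^i = (2+s)^i * (-2*(1-s))^i := by rw [← mul_pow, ← e3]
    have e5 : (2+s)^n = (2+s)^(n-i) * (2+s)^i := by rw [← pow_add]; congr 1; omega
    rw [e4, e5]
    ring
  rw [hH] at e2
  rcases mul_eq_zero.mp e2 with h | h
  · exact absurd h (pow_ne_zero _ ha)
  · exact h

end Pool.Agent.X149.PellSum
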